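import Mathlib

set_option autoImplicit false

namespace Pool.Agent.Lib.MP_1d7b2e_al

/-- A subgroup has finite index as soon as some finite-valued invariant separates its cosets. -/
theorem finiteIndex_of_key {G X : Type*} [Group G] (H : Subgroup G) (S : Set X) (hS : S.Finite)
    (κ : G → X) (hκ : ∀ g, κ g ∈ S) (h : ∀ a b, κ a = κ b → a⁻¹ * b ∈ H) : H.FiniteIndex := by
  have : Finite S := hS
  have : Finite (G ⧸ H) := by
    refine Finite.of_injective (fun q : G ⧸ H => (⟨κ q.out, hκ _⟩ : S)) ?_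
    intro a b hab
    have h1 : κ a.out = κ b.out := congrArg Subtype.val hab
    have h2 := h _ _ h1
    rw [← QuotientGroup.eq] at h2
    simpa using h2
  exact Subgroup.finiteIndex_of_finite_quotient

/-- Induction from a finite-index subgroup. -/
theorem induce {A Q : Type} [Group A] [Group Q] (H : Subgroup A) [H.FiniteIndex]
    (f : H →* Q) (B : Subgroup A)
    (hfin : ∀ g : A, {y : Q | ∃ h : H, g⁻¹ * (h : A) * g ∈ B ∧ f h = y}.Finite)
    (hinf : (Set.range f).Infinite) :
    ∃ (G : Type) (_ : Group G) (φ : A →* G), (φ '' (B : Set A)).Finite ∧ (Set.range φ).Infinite := by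
  classical
  set K : Subgroup A := f.ker.map H.subtype with hK
  have memK : ∀ a : A, a ∈ K ↔ ∃ ha : a ∈ H, f ⟨a, ha⟩ = 1 := by
    intro a
    constructor
    · rintro ⟨b, hb, rfl⟩
      exact ⟨b.2, hb⟩
    · rintro ⟨ha, h1⟩
      exact ⟨⟨a, ha⟩, h1, rfl⟩
  refine ⟨A ⧸ K.normalCore, inferInstance, QuotientGroup.mk' K.normalCore, ?_, ?_⟩
  · -- the subgroup of `B` conjugated into `K` by `g`
    let Kg : A → Subgroup B := fun g =>
      (K.comap (MulAut.conj g).toMonoidHom).comap B.subtype
    let Hg : A → Subgroup B := fun g =>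
      (H.comap (MulAut.conj g).toMonoidHom).comap B.subtype
    have memKg : ∀ g (b : B), b ∈ Kg g ↔ g * (b : A) * g⁻¹ ∈ K := by
      intro g b; exact Iff.rfl
    have memHg : ∀ g (b : B), b ∈ Hg g ↔ g * (b : A) * g⁻¹ ∈ H := by
      intro g b; exact Iff.rfl
    have hHg : ∀ g, (Hg g).FiniteIndex := by
      intro g
      refine finiteIndex_of_key _ (Set.univ : Set (A ⧸ H)) Set.finite_univ
        (fun b => QuotientGroup.mk ((b : A) * g⁻¹)) (fun _ => Set.mem_univ _) ?_
      intro a b hab
      rw [QuotientGroup.eq] at hab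
      rw [memHg]
      simpa [mul_assoc] using hab
    have hKg : ∀ g, (Kg g).FiniteIndex := by
      intro g
      have hle : Kg g ≤ Hg g := by
        intro b hb
        rw [memKg, memK] at hb
        rw [memHg]
        exact hb.1
      have h1 : ((Kg g).subgroupOf (Hg g)).FiniteIndex := by
        refine finiteIndex_of_key _ _ (hfin g)
          (fun b => f ⟨g * ((b : B) : A) * g⁻¹, (memHg g _).1 b.2⟩) ?_ ?_
        · intro b
          refine ⟨_, ?_, rfl⟩
          simp [mul_assoc]
        · intro a b hab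
          rw [Subgroup.mem_subgroupOf, memKg, memK]
          refine ⟨(memHg g _).1 (a⁻¹ * b).2, ?_⟩
          have : (⟨g * (((a⁻¹ * b : Hg g) : B) : A) * g⁻¹, (memHg g _).1 (a⁻¹ * b).2⟩ : H) =
              (⟨g * ((a : B) : A) * g⁻¹, (memHg g _).1 a.2⟩ : H)⁻¹ *
                ⟨g * ((b : B) : A) * g⁻¹, (memHg g _).1 b.2⟩ := by
            ext; simp [mul_assoc]
          rw [this, map_mul, map_inv]
          rw [hab, inv_mul_cancel]
      have h2 := Subgroup.relIndex_mul_index hle
      refine ⟨?_⟩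
      rw [← h2]
      exact mul_ne_zero h1.index_ne_zero (hHg g).index_ne_zero
    have hN : (⨅ t : A ⧸ H, Kg (t.out)⁻¹).FiniteIndex := Subgroup.finiteIndex_iInf (fun t => hKg _)
    have hsub : ∀ b : B, b ∈ (⨅ t : A ⧸ H, Kg (t.out)⁻¹) → (b : A) ∈ K.normalCore := by
      intro b hb g
      rw [Subgroup.mem_iInf] at hb
      have h1 := (memKg _ _).1 (hb (QuotientGroup.mk g⁻¹))
      obtain ⟨h, hh⟩ := QuotientGroup.mk_out_eq_mul H g⁻¹
      rw [hh, memK] at h1
      obtain ⟨h1, h2⟩ := h1
      rw [memK]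
      have e : g * (b : A) * g⁻¹ = (h : A) * ((g⁻¹ * h)⁻¹ * b * (g⁻¹ * h)⁻¹⁻¹) * (h : A)⁻¹ := by
        group
      have hm : g * (b : A) * g⁻¹ ∈ H := by
        rw [e]; exact H.mul_mem (H.mul_mem h.2 h1) (H.inv_mem h.2)
      refine ⟨hm, ?_⟩
      have e2 : (⟨g * (b : A) * g⁻¹, hm⟩ : H) = h * ⟨_, h1⟩ * h⁻¹ := Subtype.ext e
      rw [e2, map_mul, map_mul, h2, map_inv]; simp
    have := hN
    have : (QuotientGroup.mk' K.normalCore) '' (B : Set A) ⊆
        Set.range (fun t : B ⧸ (⨅ t : A ⧸ H, Kg (t.out)⁻¹) =>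
          QuotientGroup.mk' K.normalCore ((t.out : B) : A)) := by
      rintro _ ⟨b, hb, rfl⟩
      refine ⟨QuotientGroup.mk ⟨b, hb⟩, ?_⟩
      obtain ⟨h, hh⟩ := QuotientGroup.mk_out_eq_mul (⨅ t : A ⧸ H, Kg (t.out)⁻¹) (⟨b, hb⟩ : B)
      simp only [hh, QuotientGroup.mk'_apply]
      symm
      rw [QuotientGroup.eq]
      simpa using hsub _ h.2
    exact (Set.finite_range _).subset this
  · intro hfinite
    apply hinf
    have hsurj : Set.range (QuotientGroup.mk' K.normalCore) = Set.univ :=
      Set.range_eq_univ.2 (QuotientGroup.mk'_surjective _)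
    rw [hsurj] at hfinite
    have : Finite (A ⧸ K.normalCore) := Set.finite_univ_iff.1 hfinite
    have hk : f.ker.FiniteIndex := by
      refine finiteIndex_of_key _ (Set.univ : Set (A ⧸ K.normalCore)) Set.finite_univ
        (fun h => QuotientGroup.mk (h : A)) (fun _ => Set.mem_univ _) ?_
      intro a b hab
      rw [QuotientGroup.eq] at hab
      have := (memK _).1 (K.normalCore_le hab)
      obtain ⟨h1, h2⟩ := this
      exact h2
    have : Finite (H ⧸ f.ker) := Subgroup.finite_quotient_of_finiteIndex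
    have : Finite f.range := Finite.of_equiv _ (QuotientGroup.quotientKerEquivRange f).toEquiv
    exact Set.toFinite (f.range : Set Q)

end Pool.Agent.Lib.MP_1d7b2e_al
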