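import Mathlib
import Pool.Agent.Lib.MP_1d7b2e_al.Induce

set_option autoImplicit false

namespace Pool.Agent.Lib.MP_1d7b2e_al

/-- Even binary Hermitian forms over the Gaussian integers: `(a, d, x, y)` stands for the matrix
with diagonal `2a, 2d` and upper right entry `x + y i`. -/
abbrev V := ℤ × ℤ × ℤ × ℤ

/-- The polar form of the determinant. -/
def B (v w : V) : ℤ :=
  2 * (v.1 * w.2.1 + w.1 * v.2.1) - v.2.2.1 * w.2.2.1 - v.2.2.2 * w.2.2.2

/-- Centres of the ideal octahedra. -/
def Om (v : V) : Prop := B v v = 2 ∧ 0 < v.1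

def v0 : V := (1, 1, 1, 1)

/-- Normals of the eight faces of the base octahedron. -/
def nn : Fin 8 → V :=
  ![(0, 0, 0, -1), (0, 1, 0, 1), (1, 1, 2, 1), (1, 0, 0, 1),
    (1, 1, 1, 2), (1, 0, 1, 0), (0, 0, -1, 0), (0, 1, 1, 0)]

def rf (k : Fin 8) (v : V) : V := v + (2 * B v (nn k)) • nn k

theorem B_comm (v w : V) : B v w = B w v := by unfold B; ring

theorem B_add_left (u v w : V) : B (u + v) w = B u w + B v w := by
  simp only [B, Prod.fst_add, Prod.snd_add]; ring

theorem B_smul_left (c : ℤ) (v w : V) : B (c • v) w = c * B v w := by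
  simp only [B, Prod.smul_fst, Prod.smul_snd, smul_eq_mul]; ring

theorem B_neg_left (v w : V) : B (-v) w = -B v w := by
  simp only [B, Prod.fst_neg, Prod.snd_neg]; ring

theorem B_add_right (u v w : V) : B u (v + w) = B u v + B u w := by
  rw [B_comm, B_add_left, B_comm v, B_comm w]

theorem B_smul_right (c : ℤ) (v w : V) : B v (c • w) = c * B v w := by
  rw [B_comm, B_smul_left, B_comm]

theorem B_neg_right (v w : V) : B v (-w) = -B v w := by
  rw [B_comm, B_neg_left, B_comm]

theorem B_nn_self (k : Fin 8) : B (nn k) (nn k) = -1 := by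
  revert k; decide

theorem B_v0_nn (k : Fin 8) : B v0 (nn k) = 1 := by
  revert k; decide

theorem Om_v0 : Om v0 := by unfold Om; decide

theorem B_rf_left (k : Fin 8) (v m : V) : B (rf k v) m = B v m + 2 * B v (nn k) * B (nn k) m := by
  rw [rf, B_add_left, B_smul_left]

theorem B_rf_nn (k : Fin 8) (v : V) : B (rf k v) (nn k) = -B v (nn k) := by
  rw [B_rf_left, B_nn_self]; ring

theorem rf_rf (k : Fin 8) (v : V) : rf k (rf k v) = v := by
  conv_lhs => rw [rf, B_rf_nn, rf]
  rw [add_assoc, ← add_smul]; simp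

theorem B_rf_rf (k : Fin 8) (v w : V) : B (rf k v) (rf k w) = B v w := by
  rw [B_rf_left, B_comm v (rf k w), B_comm (nn k) (rf k w), B_rf_nn, B_rf_left,
    B_comm w v, B_comm (nn k) v]
  ring

theorem rf_comm {k l : Fin 8} (h : B (nn k) (nn l) = 0) (v : V) :
    rf k (rf l v) = rf l (rf k v) := by
  have h' : B (nn l) (nn k) = 0 := by rw [B_comm, h]
  have e1 : B (rf l v) (nn k) = B v (nn k) := by rw [B_rf_left, h']; ring
  have e2 : B (rf k v) (nn l) = B v (nn l) := by rw [B_rf_left, h]; ring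
  conv_lhs => rw [rf, e1, rf]
  conv_rhs => rw [rf, e2, rf]
  abel

theorem Om.pos2 {v : V} (h : Om v) : 0 < v.2.1 := by
  obtain ⟨a, d, x, y⟩ := v
  obtain ⟨h1, h2⟩ := h
  simp only [B] at h1 h2 ⊢
  by_contra hd
  push Not at hd
  nlinarith [mul_nonneg h2.le (neg_nonneg.2 hd), sq_nonneg x, sq_nonneg y]

theorem pos_of_causal {v m : V} (hv : Om v) (hm : 0 ≤ B m m) (h1 : 0 < m.1 + m.2.1) :
    0 < B v m := by
  have hd := hv.pos2
  obtain ⟨a, d, x, y⟩ := v
  obtain ⟨a', d', x', y'⟩ := m
  obtain ⟨h2, ha⟩ := hv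
  simp only [B] at *
  have hprod : 0 ≤ a' * d' := by nlinarith [sq_nonneg x', sq_nonneg y']
  have ha' : 0 ≤ a' := by
    by_contra hc
    push Not at hc
    have : 0 < d' := by omega
    nlinarith
  have hd' : 0 ≤ d' := by
    by_contra hc
    push Not at hc
    have : 0 < a' := by omega
    nlinarith
  rcases ha'.eq_or_lt with h0 | h0
  · subst h0
    have hx : x' = 0 := by nlinarith [sq_nonneg x', sq_nonneg y']
    have hy : y' = 0 := by nlinarith [sq_nonneg x', sq_nonneg y']
    subst hx hy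
    have : 0 < d' := by omega
    nlinarith
  · have key : 2 * a' * a * (2 * (a * d' + a' * d) - x * x' - y * y') =
        a' ^ 2 * (2 * (a * d + a * d) - x * x - y * y) +
        a ^ 2 * (2 * (a' * d' + a' * d') - x' * x' - y' * y') +
        (a' * x - a * x') ^ 2 + (a' * y - a * y') ^ 2 := by ring
    have hpos : 0 < 2 * a' * a * (2 * (a * d' + a' * d) - x * x' - y * y') := by
      rw [key, h2]
      have := mul_nonneg (sq_nonneg a) hm
      have := sq_nonneg (a' * x - a * x')
      have := sq_nonneg (a' * y - a * y')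
      have := pow_pos h0 2
      omega
    exact (pos_iff_pos_of_mul_pos hpos).1 (by positivity)

/-- Reverse Cauchy-Schwarz: a causal vector pairs with constant sign with the future cone. -/
theorem revCS {v v' m : V} (hv : Om v) (hv' : Om v') (hm : 0 ≤ B m m) (h : 0 < B v m) :
    0 < B v' m := by
  rcases lt_trichotomy 0 (m.1 + m.2.1) with h1 | h1 | h1
  · exact pos_of_causal hv' hm h1
  · exfalso
    obtain ⟨a', d', x', y'⟩ := m
    simp only [B] at *
    have hd : d' = -a' := by omega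
    subst hd
    have ha : a' = 0 := by nlinarith [sq_nonneg x', sq_nonneg y', sq_nonneg a']
    subst ha
    have hx : x' = 0 := by nlinarith [sq_nonneg x', sq_nonneg y']
    have hy : y' = 0 := by nlinarith [sq_nonneg x', sq_nonneg y']
    subst hx hy
    simp at h
  · exfalso
    have := pos_of_causal (m := -m) hv (by rw [B_neg_left, B_neg_right]; omega)
      (by simp only [Prod.fst_neg, Prod.snd_neg]; omega)
    rw [B_neg_right] at this
    omega

theorem Om.B_pos {v w : V} (hv : Om v) (hw : Om w) : 0 < B v w :=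
  revCS hw hv (by rw [hw.1]; omega) (by rw [hw.1]; omega)

theorem Om_of_pos {u w : V} (hu : B u u = 2) (hw : Om w) (h : 0 < B u w) : Om u := by
  refine ⟨hu, ?_⟩
  by_contra hc
  push Not at hc
  rcases hc.eq_or_lt with h0 | h0
  · obtain ⟨a, d, x, y⟩ := u
    simp only [B] at hu h0
    subst h0
    nlinarith [sq_nonneg x, sq_nonneg y]
  · have h1 : Om (-u) := ⟨by rw [B_neg_left, B_neg_right]; omega, by simpa using h0⟩
    have := h1.B_pos hw
    rw [B_neg_left] at this
    omega

theorem Om_rf_v0 (k : Fin 8) : Om (rf k v0) := by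
  revert k; unfold Om; decide

theorem Om.rf {v : V} (hv : Om v) (k : Fin 8) : Om (rf k v) :=
  Om_of_pos (by rw [B_rf_rf, hv.1]) (Om_rf_v0 k) (by rw [B_rf_rf]; exact hv.B_pos Om_v0)

theorem Om.odd {v : V} (hv : Om v) : v.2.2.1 % 2 = 1 ∧ v.2.2.2 % 2 = 1 := by
  obtain ⟨a, d, x, y⟩ := v
  obtain ⟨h1, -⟩ := hv
  simp only [B] at h1 ⊢
  obtain ⟨x', hx | hx⟩ := Int.even_or_odd' x <;> obtain ⟨y', hy | hy⟩ := Int.even_or_odd' y <;>
    subst hx hy
  · exfalso
    have : 4 * (a * d - x' * x' - y' * y') = 2 := by linarith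
    omega
  · exfalso
    have : 4 * (a * d - x' * x' - y' * y' - y') = 3 := by linarith
    omega
  · exfalso
    have : 4 * (a * d - x' * x' - y' * y' - x') = 3 := by linarith
    omega
  · omega

theorem Om.B_nn_ne {v : V} (hv : Om v) (k : Fin 8) : B v (nn k) ≠ 0 := by
  obtain ⟨h1, h2⟩ := hv.odd
  obtain ⟨a, d, x, y⟩ := v
  fin_cases k <;> simp [B, nn] at * <;> omega

theorem Om.add_pos {v : V} (hv : Om v) {k l : Fin 8} (h : 1 ≤ B (nn k) (nn l)) :
    0 < B v (nn k) + B v (nn l) := by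
  rw [← B_add_right]
  refine revCS Om_v0 hv ?_ ?_
  · rw [B_add_left, B_add_right, B_add_right, B_nn_self, B_nn_self, B_comm (nn l)]; omega
  · rw [B_add_right, B_v0_nn, B_v0_nn]; omega

theorem Om.eq_v0 {v : V} (hv : Om v) (h : ∀ k, 0 < B v (nn k)) : v = v0 := by
  have h0 := h 0
  have h1 := h 1
  have h2 := h 2
  have h3 := h 3
  have h4 := h 4
  have h5 := h 5
  have h6 := h 6
  have h7 := h 7
  have key : B v (nn 0) * B v (nn 4) + B v (nn 1) * B v (nn 5) + B v (nn 2) * B v (nn 6) +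
      B v (nn 3) * B v (nn 7) = 2 * B v v := by
    obtain ⟨a, d, x, y⟩ := v
    simp [B, nn]; ring
  rw [hv.1] at key
  have p0 : B v (nn 0) ≤ B v (nn 0) * B v (nn 4) := by nlinarith
  have p1 : B v (nn 1) ≤ B v (nn 1) * B v (nn 5) := by nlinarith
  have p2 : B v (nn 2) ≤ B v (nn 2) * B v (nn 6) := by nlinarith
  have p3 : B v (nn 3) ≤ B v (nn 3) * B v (nn 7) := by nlinarith
  have e0 : B v (nn 0) = 1 := by omega
  have e1 : B v (nn 1) = 1 := by omega
  have e2 : B v (nn 2) = 1 := by omega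
  have e3 : B v (nn 3) = 1 := by omega
  obtain ⟨a, d, x, y⟩ := v
  simp [B, nn] at e0 e1 e2 e3
  simp only [v0, Prod.mk.injEq]
  omega

theorem height_rf {v : V} {k : Fin 8} (h : B v (nn k) < 0) : B (rf k v) v0 < B v v0 := by
  rw [B_rf_left, B_comm (nn k), B_v0_nn]; omega

theorem sphere_finite (h : ℤ) : {v : V | Om v ∧ B v v0 = h}.Finite := by
  refine (Set.finite_Icc ((-2 * h, -2 * h, -2 * h, -2 * h) : V) (2 * h, 2 * h, 2 * h, 2 * h)).subset ?_
  rintro v ⟨hv, hh⟩
  have p1 := hv.add_pos (k := 2) (l := 3) (by decide)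
  have p2 := hv.add_pos (k := 1) (l := 2) (by decide)
  have p3 := hv.add_pos (k := 0) (l := 2) (by decide)
  have p4 := hv.add_pos (k := 1) (l := 3) (by decide)
  have p5 := hv.add_pos (k := 4) (l := 6) (by decide)
  have p6 := hv.add_pos (k := 5) (l := 7) (by decide)
  have hd := hv.pos2
  have ha := hv.2
  obtain ⟨a, d, x, y⟩ := v
  simp [B, nn, v0] at *
  omega

/-- Induction on the height. -/
theorem Om.induction {P : V → Prop} (h0 : P v0)
    (hstep : ∀ v k, Om v → B v (nn k) < 0 → P (MP_1d7b2e_al.rf k v) → P v) :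
    ∀ v, Om v → P v := by
  intro v
  induction' hn : (B v v0).toNat using Nat.strong_induction_on with n ih generalizing v
  intro hv
  by_cases h : ∃ k, B v (nn k) < 0
  · obtain ⟨k, hk⟩ := h
    refine hstep v k hv hk (ih _ ?_ _ rfl (hv.rf k))
    have h1 := height_rf hk
    have h2 := (hv.rf k).B_pos Om_v0
    omega
  · push Not at h
    rw [hv.eq_v0 (fun k => lt_of_le_of_ne (h k) (hv.B_nn_ne k).symm)]
    exact h0

end Pool.Agent.Lib.MP_1d7b2e_al
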