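import Mathlib
import Pool.Agent.Lib.MP_1d7b2e_al.Octa

set_option autoImplicit false

namespace Pool.Agent.Lib.MP_1d7b2e_al

/-- The affine transposition exchanging `j` and `j + 1` modulo four. -/
def sf (j : ℤ) (x : ℤ) : ℤ :=
  if (x - j) % 4 = 0 then x + 1 else if (x - j) % 4 = 1 then x - 1 else x

theorem sf_invol (j : ℤ) : Function.Involutive (sf j) := by
  intro x
  unfold sf
  split_ifs <;> omega

def sp (j : ℤ) : Equiv.Perm ℤ := (sf_invol j).toPerm

theorem sp_apply (j x : ℤ) : sp j x = sf j x := rfl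

theorem sp_mul_self (j : ℤ) : sp j * sp j = 1 := by
  ext x; exact sf_invol j x

/-- Images of the eight reflections in the affine symmetric group. -/
def qq : Fin 8 → Equiv.Perm ℤ := ![sp 1, sp 0, sp 2, sp 3, 1, 1, 1, 1]

theorem qq_mul_self (k : Fin 8) : qq k * qq k = 1 := by
  fin_cases k <;> simp [qq, sp_mul_self]

theorem table (k l : Fin 8) : k = l ∨ 1 ≤ B (nn k) (nn l) ∨
    (B (nn k) (nn l) = 0 ∧ (4 ≤ k.val ∨ 4 ≤ l.val)) := by
  revert k l; decide

theorem qq_one {k : Fin 8} (h : 4 ≤ k.val) : qq k = 1 := by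
  fin_cases k <;> simp_all [qq]

open Classical in
/-- The folding map, defined by descent on the height. -/
noncomputable def FF (v : V) : Equiv.Perm ℤ :=
  if h : Om v ∧ ∃ k, B v (nn k) < 0 then qq h.2.choose * FF (rf h.2.choose v) else 1
termination_by (B v v0).toNat
decreasing_by
  have h1 := height_rf h.2.choose_spec
  have h2 := (h.1.rf h.2.choose).B_pos Om_v0
  omega

theorem FF_v0 : FF v0 = 1 := by
  rw [FF, dif_neg]
  rintro ⟨-, k, hk⟩
  rw [B_v0_nn] at hk
  omega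

theorem FF_desc (v : V) : Om v → ∀ k, B v (nn k) < 0 → FF v = qq k * FF (rf k v) := by
  induction' hn : (B v v0).toNat using Nat.strong_induction_on with n ih generalizing v
  intro hv k hk
  have h : Om v ∧ ∃ k, B v (nn k) < 0 := ⟨hv, k, hk⟩
  rw [FF, dif_pos h]
  have hl := h.2.choose_spec
  set l := h.2.choose
  rcases table k l with h1 | h1 | ⟨h1, h2⟩
  · rw [h1]
  · have := hv.add_pos h1
    omega
  · have h1' : B (nn l) (nn k) = 0 := by rw [B_comm, h1]
    have e1 : B (rf l v) (nn k) < 0 := by rw [B_rf_left, h1']; omega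
    have e2 : B (rf k v) (nn l) < 0 := by rw [B_rf_left, h1]; omega
    have l1 := height_rf hl
    have l2 := height_rf hk
    have l3 := (hv.rf l).B_pos Om_v0
    have l4 := (hv.rf k).B_pos Om_v0
    rw [ih _ (by omega) (rf l v) rfl (hv.rf l) k e1, ih _ (by omega) (rf k v) rfl (hv.rf k) l e2,
      rf_comm h1, ← mul_assoc, ← mul_assoc]
    congr 1
    rcases h2 with h2 | h2 <;> simp [qq_one h2]

theorem FF_rf {v : V} (hv : Om v) (k : Fin 8) : FF (rf k v) = qq k * FF v := by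
  rcases lt_or_gt_of_ne (hv.B_nn_ne k) with h | h
  · rw [FF_desc v hv k h, ← mul_assoc, qq_mul_self, one_mul]
  · rw [FF_desc (rf k v) (hv.rf k) k (by rw [B_rf_nn]; omega), rf_rf]

/-- Periodic permutations preserving the blocks `j + 1, …, j + 4` modulo four. -/
def blockSet (j : ℤ) : Set (Equiv.Perm ℤ) :=
  {σ | (∀ x, σ (x + 4) = σ x + 4) ∧ ∀ x, (σ x - j - 1) / 4 = (x - j - 1) / 4}

theorem blockSet_finite (j : ℤ) : (blockSet j).Finite := by
  have hfin : (Set.pi Set.univ (fun _ : Fin 4 => Set.Icc (j + 1) (j + 4))).Finite :=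
    Set.Finite.pi (fun _ => Set.finite_Icc _ _)
  refine Set.Finite.of_finite_image (f := fun σ (i : Fin 4) => σ (j + 1 + i)) (hfin.subset ?_) ?_
  · rintro _ ⟨σ, hσ, rfl⟩ i -
    have := hσ.2 (j + 1 + i)
    have hi := i.2
    simp only [Set.mem_Icc]
    omega
  · intro σ hσ τ hτ h
    have per : ∀ ρ : Equiv.Perm ℤ, (∀ x, ρ (x + 4) = ρ x + 4) → ∀ (x m : ℤ),
        ρ (x + 4 * m) = ρ x + 4 * m := by
      intro ρ hρ x m
      induction m using Int.induction_on with
      | zero => simp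
      | succ m ih =>
        have := hρ (x + 4 * m)
        rw [show x + 4 * ((m : ℤ) + 1) = x + 4 * m + 4 by ring, this, ih]; ring
      | pred m ih =>
        have := hρ (x + 4 * (-(m : ℤ) - 1))
        rw [show x + 4 * (-(m : ℤ) - 1) + 4 = x + 4 * (-m) by ring, ih] at this
        omega
    ext x
    have hx : x = (j + 1 + ((⟨((x - j - 1) % 4).toNat, by omega⟩ : Fin 4) : ℕ)) +
        4 * ((x - j - 1) / 4) := by
      simp only
      omega
    rw [hx, per σ hσ.1, per τ hτ.1]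
    have := congrFun h ⟨((x - j - 1) % 4).toNat, by omega⟩
    simp only at this
    rw [this]

theorem one_mem_blockSet (j : ℤ) : (1 : Equiv.Perm ℤ) ∈ blockSet j := ⟨fun _ => rfl, fun _ => rfl⟩

theorem sp_mul_mem {j i : ℤ} (h : (i - j) % 4 ≠ 0) {σ : Equiv.Perm ℤ} (hσ : σ ∈ blockSet j) :
    sp i * σ ∈ blockSet j := by
  refine ⟨fun x => ?_, fun x => ?_⟩
  · simp only [Equiv.Perm.mul_apply, sp_apply, hσ.1 x, sf]
    split_ifs <;> omega
  · rw [← hσ.2 x]
    simp only [Equiv.Perm.mul_apply, sp_apply, sf]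
    split_ifs <;> omega

theorem exists_block {i : Fin 8} (hi : i.val < 4) : ∃ j : ℤ, ∀ k : Fin 8, k ≠ i →
    ∀ σ ∈ blockSet j, qq k * σ ∈ blockSet j := by
  have hj : ∃ j : ℤ, ∀ k : Fin 8, k ≠ i → qq k = 1 ∨ ∃ t, qq k = sp t ∧ (t - j) % 4 ≠ 0 := by
    fin_cases i
    · refine ⟨1, fun k hk => ?_⟩
      fin_cases k
      · exact absurd rfl hk
      · exact Or.inr ⟨0, rfl, by decide⟩
      · exact Or.inr ⟨2, rfl, by decide⟩
      · exact Or.inr ⟨3, rfl, by decide⟩
      all_goals exact Or.inl rfl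
    · refine ⟨0, fun k hk => ?_⟩
      fin_cases k
      · exact Or.inr ⟨1, rfl, by decide⟩
      · exact absurd rfl hk
      · exact Or.inr ⟨2, rfl, by decide⟩
      · exact Or.inr ⟨3, rfl, by decide⟩
      all_goals exact Or.inl rfl
    · refine ⟨2, fun k hk => ?_⟩
      fin_cases k
      · exact Or.inr ⟨1, rfl, by decide⟩
      · exact Or.inr ⟨0, rfl, by decide⟩
      · exact absurd rfl hk
      · exact Or.inr ⟨3, rfl, by decide⟩
      all_goals exact Or.inl rfl
    · refine ⟨3, fun k hk => ?_⟩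
      fin_cases k
      · exact Or.inr ⟨1, rfl, by decide⟩
      · exact Or.inr ⟨0, rfl, by decide⟩
      · exact Or.inr ⟨2, rfl, by decide⟩
      · exact absurd rfl hk
      all_goals exact Or.inl rfl
    all_goals simp at hi
  obtain ⟨j, hj⟩ := hj
  refine ⟨j, fun k hk σ hσ => ?_⟩
  rcases hj k hk with h | ⟨t, h, ht⟩
  · rwa [h, one_mul]
  · rw [h]; exact sp_mul_mem ht hσ

/-- The basic finiteness lemma for level sets through the base point. -/
theorem level_finite_base (m : V) (hm : B v0 m ≠ 0)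
    (h : ∀ v k, Om v → B v m = B v0 m → B v (nn k) < 0 → B (nn k) m = 0) :
    (FF '' {v | Om v ∧ B v m = B v0 m}).Finite := by
  have hex : ∃ i : Fin 8, i.val < 4 ∧ B (nn i) m ≠ 0 := by
    by_contra hc
    push Not at hc
    have h0 := hc 0 (by decide)
    have h1 := hc 1 (by decide)
    have h2 := hc 2 (by decide)
    have h3 := hc 3 (by decide)
    apply hm
    obtain ⟨a, d, x, y⟩ := m
    simp [B, nn, v0] at *
    omega
  obtain ⟨i, hi, him⟩ := hex
  obtain ⟨j, hj⟩ := exists_block hi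
  refine (blockSet_finite j).subset ?_
  rintro _ ⟨v, ⟨hv, hvm⟩, rfl⟩
  revert hvm
  refine Om.induction (P := fun v => B v m = B v0 m → FF v ∈ blockSet j) ?_ ?_ v hv
  · intro _
    rw [FF_v0]; exact one_mem_blockSet j
  · intro v k hv hk ih hvm
    have h0 := h v k hv hvm hk
    rw [FF_desc v hv k hk]
    refine hj k ?_ _ (ih ?_)
    · rintro rfl; exact him h0
    · rw [B_rf_left, h0, hvm]; ring

/-- Isometries of the lattice preserving the set of centres. -/
def Iso : Subgroup (Equiv.Perm V) where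
  carrier := {T | (∀ v w, B (T v) (T w) = B v w) ∧ ∀ v, Om v → Om (T v)}
  one_mem' := ⟨fun _ _ => rfl, fun _ h => h⟩
  mul_mem' := by
    rintro S T ⟨h1, h2⟩ ⟨h3, h4⟩
    exact ⟨fun v w => by simp only [Equiv.Perm.mul_apply, h1, h3], fun v hv => h2 _ (h4 _ hv)⟩
  inv_mem' := by
    rintro T ⟨h1, h2⟩
    have e : ∀ v w, B (T⁻¹ v) (T⁻¹ w) = B v w := fun v w => by
      rw [← h1]; simp
    refine ⟨e, fun v hv => Om_of_pos (w := v0) (by rw [e, hv.1]) Om_v0 ?_⟩
    rw [← h1]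
    simpa using hv.B_pos (h2 _ Om_v0)

theorem app_inv (T : Equiv.Perm V) (v : V) : T (T⁻¹ v) = v := by simp

/-- Isometries compatible with the folding map. -/
def Good : Subgroup (Equiv.Perm V) where
  carrier := {T | T ∈ Iso ∧ ∀ v, Om v → FF (T v) = FF (T v0) * FF v}
  one_mem' := ⟨Iso.one_mem, fun v _ => by simp [FF_v0]⟩
  mul_mem' := by
    rintro S T ⟨h1, h2⟩ ⟨h3, h4⟩
    refine ⟨Iso.mul_mem h1 h3, fun v hv => ?_⟩
    simp only [Equiv.Perm.mul_apply]
    rw [h2 _ (h3.2 _ hv), h4 _ hv, h2 _ (h3.2 _ Om_v0), mul_assoc]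
  inv_mem' := by
    rintro T ⟨h1, h2⟩
    have hi := Iso.inv_mem h1
    refine ⟨hi, fun v hv => ?_⟩
    have e1 := h2 _ (hi.2 _ hv)
    have e2 := h2 _ (hi.2 _ Om_v0)
    rw [app_inv] at e1 e2
    rw [FF_v0] at e2
    rw [e1, ← mul_assoc, eq_inv_of_mul_eq_one_right e2.symm]
    simp

def rp (k : Fin 8) : Equiv.Perm V := Function.Involutive.toPerm (rf k) (rf_rf k)

theorem rp_apply (k : Fin 8) (v : V) : rp k v = rf k v := rfl

theorem rp_good (k : Fin 8) : rp k ∈ Good := by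
  refine ⟨⟨B_rf_rf k, fun v hv => hv.rf k⟩, fun v hv => ?_⟩
  rw [rp_apply, rp_apply, FF_rf hv, FF_rf Om_v0, FF_v0, mul_one]

theorem exists_good (v : V) (hv : Om v) : ∃ w ∈ Good, w v = v0 := by
  refine Om.induction (P := fun v => ∃ w ∈ Good, w v = v0) ⟨1, Good.one_mem, rfl⟩ ?_ v hv
  rintro v k - - ⟨w, hw, e⟩
  exact ⟨w * rp k, Good.mul_mem hw (rp_good k), e⟩

theorem level_finite_of_good {w : Equiv.Perm V} (hw : w ∈ Good) (m : V) (c : ℤ)
    (h : (FF '' {v | Om v ∧ B v (w m) = c}).Finite) :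
    (FF '' {v | Om v ∧ B v m = c}).Finite := by
  refine (h.image (fun y => (FF (w v0))⁻¹ * y)).subset ?_
  rintro _ ⟨v, ⟨hv, hvm⟩, rfl⟩
  refine ⟨FF (w v), ⟨w v, ⟨hw.1.2 v hv, by rw [hw.1.1, hvm]⟩, rfl⟩, ?_⟩
  simp only
  rw [hw.2 v hv]; simp

/-- Cusp case. -/
theorem cusp_finite (m : V) (hm : ∀ v, Om v → 0 < B v m) :
    ∃ u, Om u ∧ (FF '' {v | Om v ∧ B v m = B u m}).Finite := by
  classical
  have hex : ∃ n : ℕ, ∃ u, Om u ∧ B u m = n :=
    ⟨(B v0 m).toNat, v0, Om_v0, by have := hm _ Om_v0; omega⟩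
  obtain ⟨u, hu, hun⟩ := Nat.find_spec hex
  have hmin : ∀ v, Om v → B u m ≤ B v m := by
    intro v hv
    have h1 := hm v hv
    have := Nat.find_min' hex (m := (B v m).toNat) ⟨v, hv, by omega⟩
    omega
  obtain ⟨w, hw, e⟩ := exists_good u hu
  refine ⟨u, hu, level_finite_of_good hw m _ ?_⟩
  have e0 : B u m = B v0 (w m) := by rw [← e, hw.1.1]
  have hmin' : ∀ v, Om v → B v0 (w m) ≤ B v (w m) := by
    intro v hv
    have hi := Iso.inv_mem hw.1
    have := hmin _ (hi.2 v hv)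
    rw [e0, ← hw.1.1 (w⁻¹ v)] at this
    simpa using this
  rw [e0]
  refine level_finite_base _ (by rw [← e0]; exact (hm u hu).ne') ?_
  intro v k hv hvm hk
  have h1 := hmin' _ (Om_v0.rf k)
  have h2 := hmin' _ (hv.rf k)
  rw [B_rf_left, B_v0_nn] at h1
  rw [B_rf_left, hvm] at h2
  nlinarith

/-- Wall case. -/
theorem wall_finite (m : V) (hm : B m m = -1) : (FF '' {v | Om v ∧ B v m = 1}).Finite := by
  rcases Set.eq_empty_or_nonempty {v | Om v ∧ B v m = 1} with h | ⟨u, hu, hum⟩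
  · rw [h]; simp
  obtain ⟨w, hw, e⟩ := exists_good u hu
  refine level_finite_of_good hw m _ ?_
  have e0 : B v0 (w m) = 1 := by rw [← e, hw.1.1, hum]
  have e1 : B (w m) (w m) = -1 := by rw [hw.1.1, hm]
  rw [← e0]
  refine level_finite_base _ (by omega) ?_
  intro v k hv hvm hk
  rw [e0] at hvm
  rcases lt_trichotomy (B (nn k) (w m)) 0 with h1 | h1 | h1
  · exfalso
    have := revCS (m := w m + -nn k) hv Om_v0 ?_ ?_
    · rw [B_add_right, B_neg_right, e0, B_v0_nn] at this; omega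
    · rw [B_add_left, B_add_right, B_add_right, B_neg_left, B_neg_left, B_neg_right, B_neg_right,
        e1, B_nn_self, B_comm (w m)]
      omega
    · rw [B_add_right, B_neg_right]; omega
  · exact h1
  · exfalso
    have := revCS (m := w m + nn k) Om_v0 hv ?_ ?_
    · rw [B_add_right] at this; omega
    · rw [B_add_left, B_add_right, B_add_right, e1, B_nn_self, B_comm (w m)]
      omega
    · rw [B_add_right, e0, B_v0_nn]; omega

theorem iso_eq_one {T : Equiv.Perm V} (hT : T ∈ Iso) (h0 : T v0 = v0)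
    (h : ∀ k, T (rf k v0) = rf k v0) : T = 1 := by
  ext1 v
  have e0 := hT.1 v v0
  have e1 := hT.1 v (rf 0 v0)
  have e2 := hT.1 v (rf 1 v0)
  have e3 := hT.1 v (rf 2 v0)
  rw [h0] at e0
  rw [h] at e1 e2 e3
  simp only [Equiv.Perm.one_apply]
  generalize T v = u at *
  obtain ⟨a, d, x, y⟩ := v
  obtain ⟨a', d', x', y'⟩ := u
  simp [B, rf, nn, v0] at *
  omega

theorem good_finiteIndex {G : Type*} [Group G] (ρ : G →* Equiv.Perm V) (hρ : ∀ g, ρ g ∈ Iso) :
    (Good.comap ρ).FiniteIndex := by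
  choose w hw e using fun g : G => exists_good (ρ g⁻¹ v0) ((hρ _).2 _ Om_v0)
  have hiso : ∀ g, (w g * ρ g⁻¹)⁻¹ ∈ Iso := fun g => Iso.inv_mem (Iso.mul_mem (hw g).1 (hρ _))
  have hfix : ∀ g, (w g * ρ g⁻¹)⁻¹ v0 = v0 := fun g => by
    rw [Equiv.Perm.inv_eq_iff_eq]; exact (e g).symm
  refine finiteIndex_of_key _ (Set.pi Set.univ (fun _ : Fin 8 => {v : V | Om v ∧ B v v0 = 4}))
    (Set.Finite.pi (fun _ => sphere_finite 4)) (fun g k => (w g * ρ g⁻¹)⁻¹ (rf k v0)) ?_ ?_
  · intro g k _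
    refine ⟨(hiso g).2 _ (Om_rf_v0 k), ?_⟩
    conv_lhs => enter [2]; rw [← hfix g]
    rw [(hiso g).1, B_rf_left, B_v0_nn, B_comm (nn k), B_v0_nn, Om_v0.1]; rfl
  · intro a b hab
    have h1 : (w a * ρ a⁻¹) * (w b * ρ b⁻¹)⁻¹ = 1 := by
      refine iso_eq_one (Iso.mul_mem (Iso.mul_mem (hw a).1 (hρ _)) (hiso b)) ?_ ?_
      · rw [Equiv.Perm.mul_apply, hfix]; exact e a
      · intro k
        rw [Equiv.Perm.mul_apply, ← congrFun hab k]
        exact app_inv _ _
    rw [Subgroup.mem_comap, map_mul]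
    have h2 : ρ a⁻¹ * ρ b = (w a)⁻¹ * w b := by
      rw [mul_inv_eq_one, map_inv ρ b] at h1
      rw [eq_inv_mul_iff_mul_eq, ← mul_assoc, h1]; simp
    rw [h2]
    exact Good.mul_mem (Good.inv_mem (hw a)) (hw b)

end Pool.Agent.Lib.MP_1d7b2e_al
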