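import Mathlib
import Pool.Agent.Lib.MP_1d7b2e_al.Fold

set_option autoImplicit false

namespace Pool.Agent.Lib.MP_1d7b2e_al

abbrev GI := GaussianInt

abbrev M2 := Matrix (Fin 2) (Fin 2) GI

/-- Half the value of the Hermitian form `v` at the row vector `(p, q)`. -/
def hv (p q : GI) (v : V) : ℤ :=
  v.1 * (p.re ^ 2 + p.im ^ 2) + v.2.1 * (q.re ^ 2 + q.im ^ 2) +
    (p * ⟨v.2.2.1, v.2.2.2⟩ * star q).re

/-- The sesquilinear value of `v` at two row vectors. -/
def sv (p q r s : GI) (v : V) : GI :=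
  ⟨2 * v.1, 0⟩ * p * star r + p * ⟨v.2.2.1, v.2.2.2⟩ * star s +
    q * ⟨v.2.2.1, -v.2.2.2⟩ * star r + ⟨2 * v.2.1, 0⟩ * q * star s

/-- `H ↦ g H g*`. -/
def act (g : M2) (v : V) : V :=
  (hv (g 0 0) (g 0 1) v, hv (g 1 0) (g 1 1) v,
    (sv (g 0 0) (g 0 1) (g 1 0) (g 1 1) v).re, (sv (g 0 0) (g 0 1) (g 1 0) (g 1 1) v).im)

theorem hv_act (p q : GI) (g : M2) (v : V) :
    hv p q (act g v) = hv (p * g 0 0 + q * g 1 0) (p * g 0 1 + q * g 1 1) v := by
  simp only [hv, act, sv, Zsqrtd.re_add, Zsqrtd.im_add, Zsqrtd.re_mul, Zsqrtd.im_mul,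
    Zsqrtd.re_star, Zsqrtd.im_star]
  ring

theorem sv_act (p q r s : GI) (g : M2) (v : V) :
    sv p q r s (act g v) = sv (p * g 0 0 + q * g 1 0) (p * g 0 1 + q * g 1 1)
      (r * g 0 0 + s * g 1 0) (r * g 0 1 + s * g 1 1) v := by
  ext <;>
  simp only [hv, act, sv, Zsqrtd.re_add, Zsqrtd.im_add, Zsqrtd.re_mul, Zsqrtd.im_mul,
    Zsqrtd.re_star, Zsqrtd.im_star] <;>
  ring

theorem act_mul (g h : M2) (v : V) : act (g * h) v = act g (act h v) := by
  conv_rhs => rw [act, hv_act, hv_act, sv_act]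
  simp only [act, Matrix.mul_apply, Fin.sum_univ_two]

theorem act_one (v : V) : act 1 v = v := by
  obtain ⟨a, d, x, y⟩ := v
  simp [act, hv, sv]

theorem B_act (g : M2) (v w : V) :
    B (act g v) (act g w) = (g.det.re ^ 2 + g.det.im ^ 2) * B v w := by
  simp only [Matrix.det_fin_two, B, hv, act, sv, Zsqrtd.re_add, Zsqrtd.im_add, Zsqrtd.re_mul,
    Zsqrtd.im_mul, Zsqrtd.re_star, Zsqrtd.im_star, Zsqrtd.re_sub, Zsqrtd.im_sub]
  ring

/-- The null vector attached to a row vector. -/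
def ell (p q : GI) : V :=
  (q.re ^ 2 + q.im ^ 2, p.re ^ 2 + p.im ^ 2, -2 * (p * star q).re, 2 * (p * star q).im)

theorem B_ell (p q : GI) (v : V) : B v (ell p q) = 2 * hv p q v := by
  simp only [B, hv, ell, Zsqrtd.re_mul, Zsqrtd.im_mul, Zsqrtd.re_star, Zsqrtd.im_star]
  ring

theorem B_ell_ell (p q : GI) : B (ell p q) (ell p q) = 0 := by
  simp only [B, ell, Zsqrtd.re_mul, Zsqrtd.im_mul, Zsqrtd.re_star, Zsqrtd.im_star]
  ring

theorem B_ell_pos {p q : GI} (h : ¬(p = 0 ∧ q = 0)) {v : V} (hv : Om v) : 0 < B v (ell p q) := by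
  refine pos_of_causal hv (by rw [B_ell_ell]) ?_
  simp only [ell]
  by_contra hc
  apply h
  have h1 : p.re = 0 := by nlinarith [sq_nonneg p.re, sq_nonneg p.im, sq_nonneg q.re, sq_nonneg q.im]
  have h2 : p.im = 0 := by nlinarith [sq_nonneg p.re, sq_nonneg p.im, sq_nonneg q.re, sq_nonneg q.im]
  have h3 : q.re = 0 := by nlinarith [sq_nonneg p.re, sq_nonneg p.im, sq_nonneg q.re, sq_nonneg q.im]
  have h4 : q.im = 0 := by nlinarith [sq_nonneg p.re, sq_nonneg p.im, sq_nonneg q.re, sq_nonneg q.im]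
  constructor <;> ext <;> simp [*]

theorem norm_det_eq_one {g h : M2} (e : g * h = 1) : g.det.re ^ 2 + g.det.im ^ 2 = 1 := by
  have h1 : g.det * h.det = 1 := by rw [← Matrix.det_mul, e, Matrix.det_one]
  have h2 : (g.det.re ^ 2 + g.det.im ^ 2) * (h.det.re ^ 2 + h.det.im ^ 2) = 1 := by
    have h3 := congrArg Zsqrtd.re h1
    have h4 := congrArg Zsqrtd.im h1
    simp only [Zsqrtd.re_mul, Zsqrtd.im_mul, Zsqrtd.re_one, Zsqrtd.im_one] at h3 h4
    have : (g.det.re ^ 2 + g.det.im ^ 2) * (h.det.re ^ 2 + h.det.im ^ 2) =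
      (g.det.re * h.det.re + -1 * g.det.im * h.det.im) ^ 2 +
        (g.det.re * h.det.im + g.det.im * h.det.re) ^ 2 := by ring
    rw [this, h3, h4]; norm_num
  exact Int.eq_one_of_mul_eq_one_right (by positivity) h2

theorem B_act_of_inv {g h : M2} (e : g * h = 1) (v w : V) : B (act g v) (act g w) = B v w := by
  rw [B_act, norm_det_eq_one e, one_mul]

theorem Om_act {g h : M2} (e : g * h = 1) {v : V} (hv : Om v) : Om (act g v) := by
  refine ⟨by rw [B_act_of_inv e, hv.1], ?_⟩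
  have h1 : ¬(g 0 0 = 0 ∧ g 0 1 = 0) := by
    rintro ⟨h1, h2⟩
    have := congrFun (congrFun e 0) 0
    simp [Matrix.mul_apply, Fin.sum_univ_two, h1, h2] at this
  have := B_ell_pos h1 hv
  rw [B_ell] at this
  simp only [act]
  omega

def actEnd : M2 →* Function.End V where
  toFun := act
  map_one' := funext act_one
  map_mul' g h := funext (act_mul g h)

def actPerm {G : Type*} [Group G] (ρ : G →* M2) : G →* Equiv.Perm V :=
  (actEnd.comp ρ).toHomPerm

theorem actPerm_apply {G : Type*} [Group G] (ρ : G →* M2) (g : G) (v : V) :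
    actPerm ρ g v = act (ρ g) v := rfl

theorem actPerm_iso {G : Type*} [Group G] (ρ : G →* M2) (g : G) : actPerm ρ g ∈ Iso := by
  have e : ρ g * ρ g⁻¹ = 1 := by rw [← map_mul]; simp
  exact ⟨B_act_of_inv e, fun v hv => Om_act e hv⟩

/-- A real matrix multiplies the normal of the real plane by its determinant. -/
theorem act_real {g : M2} (hg : ∀ i j, (g i j).im = 0) : act g (nn 0) = g.det.re • nn 0 := by
  have h00 := hg 0 0
  have h01 := hg 0 1
  have h10 := hg 1 0
  have h11 := hg 1 1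
  simp [act, hv, sv, nn, Matrix.det_fin_two, h00, h01, h10, h11]
  ring

theorem det_real {g h : M2} (hg : ∀ i j, (g i j).im = 0) (e : g * h = 1) :
    g.det.re = 1 ∨ g.det.re = -1 := by
  have h1 := norm_det_eq_one e
  have h2 : g.det.im = 0 := by
    simp [Matrix.det_fin_two, hg]
  rw [h2] at h1
  have : (g.det.re - 1) * (g.det.re + 1) = 0 := by linarith
  rcases mul_eq_zero.1 this with h | h
  · left; omega
  · right; omega

/-- Matrices conjugate to real ones by a fixed matrix have finitely many folded values. -/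
theorem wall_values (P P' : M2) (e : P * P' = 1) :
    ∃ u, Om u ∧ ∃ S : Set (Equiv.Perm ℤ), S.Finite ∧ ∀ g g' : M2, g * g' = 1 →
      (∀ i j, ((P * g * P') i j).im = 0) → FF (act g u) ∈ S := by
  have e' : P' * P = 1 := mul_eq_one_comm.1 e
  have hm : B (act P' (nn 0)) (act P' (nn 0)) = -1 := by rw [B_act_of_inv e', B_nn_self]
  refine ⟨act P' v0, Om_act e' Om_v0, _, (wall_finite _ hm).union (wall_finite (-act P' (nn 0))
    (by rw [B_neg_left, B_neg_right, hm]; rfl)), ?_⟩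
  intro g g' hg hreal
  have hOm : Om (act g (act P' v0)) := Om_act hg (Om_act e' Om_v0)
  have e2 : (P * g * P') * (P * g' * P') = 1 := by
    calc (P * g * P') * (P * g' * P') = P * (g * (P' * P) * g') * P' := by
          simp only [mul_assoc]
      _ = 1 := by rw [e', mul_one, hg, mul_one, e]
  have h1 : act g (act P' (nn 0)) = act P' (act (P * g * P') (nn 0)) := by
    rw [← act_mul, ← act_mul, ← mul_assoc, ← mul_assoc, e', one_mul]
  have h2 : B (act g (act P' v0)) (act g (act P' (nn 0))) = 1 := by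
    rw [B_act_of_inv hg, B_act_of_inv e', B_v0_nn]
  rw [h1, act_real hreal] at h2
  rcases det_real hreal e2 with h | h
  · rw [h, one_smul] at h2
    exact Or.inl ⟨_, ⟨hOm, h2⟩, rfl⟩
  · refine Or.inr ⟨_, ⟨hOm, ?_⟩, rfl⟩
    rw [h] at h2
    have : act P' ((-1 : ℤ) • nn 0) = -act P' (nn 0) := by
      simp [act, hv, sv, nn]
      refine ⟨?_, ?_, ?_, ?_⟩ <;> ring
    rwa [this] at h2

/-- Matrices fixing a nonzero row vector have finitely many folded values. -/
theorem cusp_values (p q : GI) (h : ¬(p = 0 ∧ q = 0)) :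
    ∃ u, Om u ∧ ∃ S : Set (Equiv.Perm ℤ), S.Finite ∧ ∀ g g' : M2, g * g' = 1 →
      p * g 0 0 + q * g 1 0 = p → p * g 0 1 + q * g 1 1 = q → FF (act g u) ∈ S := by
  obtain ⟨u, hu, hfin⟩ := cusp_finite (ell p q) (fun v hv => B_ell_pos h hv)
  refine ⟨u, hu, _, hfin, fun g g' hg h1 h2 => ⟨_, ⟨Om_act hg hu, ?_⟩, rfl⟩⟩
  rw [B_ell, B_ell, hv_act, h1, h2]

end Pool.Agent.Lib.MP_1d7b2e_al
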