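import Mathlib
import Pool.Agent.Lib.MP_1d7b2e_al.Herm

set_option autoImplicit false

namespace Pool.Agent.Lib.MP_1d7b2e_al

abbrev F3 := FreeGroup (Fin 3)

/-- The affine group of the Gaussian integers. -/
@[ext] structure Aff where
  u : GIˣ
  c : GI

instance : Mul Aff := ⟨fun a b => ⟨a.u * b.u, a.c + a.u * b.c⟩⟩
instance : One Aff := ⟨⟨1, 0⟩⟩
instance : Inv Aff := ⟨fun a => ⟨a.u⁻¹, -(↑a.u⁻¹ * a.c)⟩⟩

theorem Aff.mul_u (a b : Aff) : (a * b).u = a.u * b.u := rfl
theorem Aff.mul_c (a b : Aff) : (a * b).c = a.c + a.u * b.c := rfl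
theorem Aff.one_u : (1 : Aff).u = 1 := rfl
theorem Aff.one_c : (1 : Aff).c = 0 := rfl
theorem Aff.inv_u (a : Aff) : (a⁻¹).u = a.u⁻¹ := rfl
theorem Aff.inv_c (a : Aff) : (a⁻¹).c = -(↑a.u⁻¹ * a.c) := rfl

instance : Group Aff := Group.ofLeftAxioms
  (fun a b c => by
    apply Aff.ext
    · simp only [Aff.mul_u, mul_assoc]
    · simp only [Aff.mul_c, Aff.mul_u, Units.val_mul]; ring)
  (fun a => by ext <;> simp [Aff.mul_u, Aff.mul_c, Aff.one_u, Aff.one_c])
  (fun a => by ext <;> simp [Aff.mul_u, Aff.mul_c, Aff.one_u, Aff.one_c, Aff.inv_u, Aff.inv_c])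

def Aff.lin : Aff →* GIˣ where
  toFun := Aff.u
  map_one' := rfl
  map_mul' _ _ := rfl

/-- Crossed homomorphisms for the character `χ`. -/
def IsCoc (χ : F3 →* GIˣ) (c : F3 → GI) : Prop := ∀ g h, c (g * h) = c g + χ g * c h

/-- The crossed homomorphism with prescribed values on the basis. -/
def coc (χ : F3 →* GIˣ) (t : Fin 3 → GI) (w : F3) : GI :=
  (FreeGroup.lift (fun j => (⟨χ (FreeGroup.of j), t j⟩ : Aff)) w).c

theorem coc_of (χ : F3 →* GIˣ) (t : Fin 3 → GI) (j : Fin 3) : coc χ t (FreeGroup.of j) = t j := by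
  simp [coc]

theorem isCoc_coc (χ : F3 →* GIˣ) (t : Fin 3 → GI) : IsCoc χ (coc χ t) := by
  have h : Aff.lin.comp (FreeGroup.lift (fun j => (⟨χ (FreeGroup.of j), t j⟩ : Aff))) = χ := by
    ext1 j
    simp [Aff.lin]
  intro g w
  have h2 : (FreeGroup.lift (fun j => (⟨χ (FreeGroup.of j), t j⟩ : Aff)) g).u = χ g :=
    DFunLike.congr_fun h g
  simp only [coc, map_mul, Aff.mul_c, h2]

theorem IsCoc.one {χ : F3 →* GIˣ} {c : F3 → GI} (h : IsCoc χ c) : c 1 = 0 := by
  have := h 1 1
  simpa using this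

theorem IsCoc.inv {χ : F3 →* GIˣ} {c : F3 → GI} (h : IsCoc χ c) (g : F3) :
    c g⁻¹ = -(↑(χ g)⁻¹ * c g) := by
  have := h g⁻¹ g
  rw [inv_mul_cancel, h.one, map_inv] at this
  linear_combination -this

theorem IsCoc.zero_closure {χ : F3 →* GIˣ} {c : F3 → GI} (h : IsCoc χ c) {S : Set F3}
    (hS : ∀ s ∈ S, c s = 0) {g : F3} (hg : g ∈ Subgroup.closure S) : c g = 0 := by
  induction hg using Subgroup.closure_induction with
  | mem s hs => exact hS s hs
  | one => exact h.one
  | mul a b _ _ ha hb => rw [h, ha, hb]; simp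
  | inv a _ ha => rw [h.inv, ha]; simp

theorem IsCoc.zero {χ : F3 →* GIˣ} {c : F3 → GI} (h : IsCoc χ c)
    (h0 : ∀ j, c (FreeGroup.of j) = 0) (g : F3) : c g = 0 := by
  refine h.zero_closure (S := Set.range FreeGroup.of) ?_ ?_
  · rintro _ ⟨j, rfl⟩; exact h0 j
  · rw [FreeGroup.closure_range_of]; trivial

theorem IsCoc.comp {χ χ' : F3 →* GIˣ} {c : F3 → GI} (h : IsCoc χ c) (α : MulAut F3)
    (e : ∀ w, χ (α w) = χ' w) : IsCoc χ' (fun w => c (α w)) := by
  intro g w
  simp only [map_mul]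
  rw [h, e]

def II : GI := ⟨0, 1⟩

def Iu : GIˣ := ⟨⟨0, 1⟩, ⟨0, -1⟩, by decide, by decide⟩

/-- The character of order four killing the first two generators. -/
def chi : F3 →* GIˣ := FreeGroup.lift ![1, 1, Iu]

def xx (j : Fin 2) : F3 := FreeGroup.of j.castSucc

def zz : F3 := FreeGroup.of 2

theorem chi_xx (j : Fin 2) : chi (xx j) = 1 := by
  fin_cases j <;> simp [chi, xx]

theorem chi_zz : chi zz = Iu := by simp [chi, zz]

def tt (k : Fin 2) (j : Fin 3) : GI := if j = k.castSucc then 1 else 0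

def cc (k : Fin 2) : F3 → GI := coc chi (tt k)

theorem isCoc_cc (k : Fin 2) : IsCoc chi (cc k) := isCoc_coc _ _

theorem IsCoc.cobound {c : F3 → GI} (h : IsCoc chi c) (h0 : c (xx 0) = 0) (h1 : c (xx 1) = 0)
    (w : F3) : (II - 1) * c w = (chi w - 1) * c zz := by
  have hd : IsCoc chi (fun w => (II - 1) * c w - (chi w - 1) * c zz) := by
    intro g w
    simp only [h g w, map_mul, Units.val_mul]
    ring
  have := hd.zero (fun j => ?_) w
  · linear_combination this
  · fin_cases j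
    · have := chi_xx 0
      simp only [xx] at this h0
      simp at this h0
      simp [this, h0]
    · have := chi_xx 1
      simp only [xx] at this h1
      simp at this h1
      simp [this, h1]
    · have := chi_zz
      simp only [zz] at this
      simp [this, zz, II, Iu]

theorem II_sub_one_ne : II - 1 ≠ 0 := by decide

theorem IsCoc.expand {c : F3 → GI} (h : IsCoc chi c) {r : F3} (hr : chi r = 1) :
    c r = c (xx 0) * cc 0 r + c (xx 1) * cc 1 r := by
  have hd : IsCoc chi (fun w => c w - (c (xx 0) * cc 0 w + c (xx 1) * cc 1 w)) := by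
    intro g w
    simp only [h g w, isCoc_cc 0 g w, isCoc_cc 1 g w]
    ring
  have h1 := hd.cobound (by simp [cc, xx, coc_of, tt]) (by simp [cc, xx, coc_of, tt]) r
  rw [hr] at h1
  simp only [Units.val_one, sub_self, zero_mul, mul_eq_zero, II_sub_one_ne, false_or] at h1
  linear_combination h1

def rho (α : MulAut F3) : M2 := Matrix.of fun k j => cc k (α (xx j))

/-- The stabiliser of the character. -/
def Gam : Subgroup (MulAut F3) where
  carrier := {α | ∀ w, chi (α w) = chi w}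
  one_mem' := fun _ => rfl
  mul_mem' := fun {a b} ha hb w => by rw [MulAut.mul_apply, ha, hb]
  inv_mem' := fun {a} ha w => by rw [← ha]; simp

theorem mem_Gam_of {α : MulAut F3} (h : ∀ j, chi (α (FreeGroup.of j)) = chi (FreeGroup.of j)) :
    α ∈ Gam := by
  have : chi.comp (α : F3 →* F3) = chi := by
    ext1 j; exact h j
  intro w
  exact DFunLike.congr_fun this w

theorem Gam_finiteIndex : Gam.FiniteIndex := by
  have h4 : ∀ w, chi w ^ 4 = 1 := by
    have : (powMonoidHom 4).comp chi = 1 := by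
      ext1 j
      fin_cases j <;> simp [chi]
      decide
    intro w
    exact DFunLike.congr_fun this w
  have hfin : ((rootsOfUnity 4 GI : Subgroup GIˣ) : Set GIˣ).Finite :=
    (inferInstance : Finite (rootsOfUnity 4 GI))
  refine finiteIndex_of_key _ (Set.pi Set.univ (fun _ : Fin 3 => (rootsOfUnity 4 GI : Set GIˣ)))
    (Set.Finite.pi (fun _ => hfin)) (fun α j => chi (α⁻¹ (FreeGroup.of j))) ?_ ?_
  · intro α j _
    exact h4 _
  · intro a b hab
    have : chi.comp ((a⁻¹ : MulAut F3) : F3 →* F3) = chi.comp ((b⁻¹ : MulAut F3) : F3 →* F3) := by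
      ext1 j; exact congrFun hab j
    intro w
    have h1 : chi (a⁻¹ (b w)) = chi (b⁻¹ (b w)) := DFunLike.congr_fun this (b w)
    rw [MulAut.mul_apply, h1]; simp

theorem rho_one : rho 1 = 1 := by
  ext1 k j
  fin_cases k <;> fin_cases j <;> simp [rho, cc, xx, coc_of, tt]

theorem rho_mul {α β : MulAut F3} (hα : α ∈ Gam) (hβ : β ∈ Gam) :
    rho (α * β) = rho α * rho β := by
  ext1 k j
  have h := ((isCoc_cc k).comp α hα).expand (r := β (xx j)) (by rw [hβ, chi_xx])
  simp only [rho, Matrix.mul_apply, Fin.sum_univ_two, Matrix.of_apply, MulAut.mul_apply]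
  exact h

def rhoHom : Gam →* M2 where
  toFun α := rho α
  map_one' := rho_one
  map_mul' α β := rho_mul α.2 β.2

/-- The free factor on the first two generators. -/
def A0 : Subgroup F3 := Subgroup.closure (Set.range xx)

theorem conj_values (g : MulAut F3) :
    ∃ u, Om u ∧ ∃ S : Set (Equiv.Perm ℤ), S.Finite ∧ ∀ β ∈ Gam,
      (g⁻¹ * β * g) zz = zz → (∀ j, (g⁻¹ * β * g) (xx j) ∈ A0) → FF (act (rho β) u) ∈ S := by
  set χ : F3 →* GIˣ := chi.comp (g : F3 →* F3) with hχ
  have hχ' : ∀ w, χ (g⁻¹ w) = chi w := fun w => by simp [hχ]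
  have hinv : ∀ β ∈ Gam, rho β * rho β⁻¹ = 1 := fun β hβ => by
    rw [← rho_mul hβ (Gam.inv_mem hβ), mul_inv_cancel, rho_one]
  by_cases hc : ∀ j, chi (g (xx j)) = 1
  · have hcg : ∀ k, IsCoc chi (fun w => coc χ (tt k) (g⁻¹ w)) :=
      fun k => (isCoc_coc χ (tt k)).comp g⁻¹ hχ'
    set P : M2 := Matrix.of fun k j => coc χ (tt k) (g⁻¹ (xx j)) with hP
    set P' : M2 := Matrix.of fun k j => cc k (g (xx j)) with hP'
    have key : ∀ β ∈ Gam, ∀ k j, (P * rho β * P') k j = coc χ (tt k) ((g⁻¹ * β * g) (xx j)) := by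
      intro β hβ k j
      have h1 : ∀ l, (P * rho β) k l = coc χ (tt k) (g⁻¹ (β (xx l))) := by
        intro l
        have := (hcg k).expand (r := β (xx l)) (by rw [hβ, chi_xx])
        rw [this]
        simp only [hP, rho, Matrix.mul_apply, Fin.sum_univ_two, Matrix.of_apply]
      have h2 := ((hcg k).comp β hβ).expand (r := g (xx j)) (hc j)
      rw [Matrix.mul_apply, Fin.sum_univ_two, h1, h1, MulAut.mul_apply, MulAut.mul_apply, h2]
      simp only [hP', Matrix.of_apply]
    have e : P * P' = 1 := by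
      ext1 k j
      have := key 1 Gam.one_mem k j
      rw [rho_one, mul_one, mul_one, inv_mul_cancel] at this
      rw [this]
      fin_cases k <;> fin_cases j <;> simp [xx, coc_of, tt]
    obtain ⟨u, hu, S, hS, h⟩ := wall_values P P' e
    refine ⟨u, hu, S, hS, fun β hβ _ h2 => h _ _ (hinv β hβ) fun k j => ?_⟩
    rw [key β hβ]
    have : ∀ a ∈ A0, χ a = 1 ∧ (coc χ (tt k) a).im = 0 := by
      intro a ha
      induction ha using Subgroup.closure_induction with
      | mem s hs =>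
        obtain ⟨l, rfl⟩ := hs
        refine ⟨hc l, ?_⟩
        rw [xx, coc_of, tt]
        split_ifs <;> rfl
      | one => exact ⟨map_one _, by rw [(isCoc_coc _ _).one]; rfl⟩
      | mul a b _ _ ha hb =>
        refine ⟨by rw [map_mul, ha.1, hb.1, one_mul], ?_⟩
        rw [isCoc_coc, ha.1]
        simp [ha.2, hb.2]
      | inv a _ ha =>
        refine ⟨by rw [map_inv, ha.1, inv_one], ?_⟩
        rw [(isCoc_coc _ _).inv, ha.1]
        simp [ha.2]
    exact (this _ (h2 j)).2
  · push Not at hc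
    obtain ⟨j0, hj0⟩ := hc
    have hc' := isCoc_coc χ ![0, 0, 1]
    have hcg : IsCoc chi (fun w => coc χ ![0, 0, 1] (g⁻¹ w)) := hc'.comp g⁻¹ hχ'
    have hx : ∀ j, coc χ ![0, 0, 1] (xx j) = 0 := fun j => by
      fin_cases j <;> simp [xx, coc_of]
    have hz : coc χ ![0, 0, 1] zz = 1 := by simp [zz, coc_of]
    have hne : ¬(coc χ ![0, 0, 1] (g⁻¹ (xx 0)) = 0 ∧ coc χ ![0, 0, 1] (g⁻¹ (xx 1)) = 0) := by
      rintro ⟨h0, h1⟩
      have h2 := hcg.cobound h0 h1 (g (xx j0))
      have h3 := hcg.cobound h0 h1 (g zz)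
      simp only [MulAut.inv_apply_self] at h2 h3
      rw [hx, mul_zero] at h2
      rw [hz, mul_one] at h3
      rcases mul_eq_zero.1 h2.symm with h | h
      · exact hj0 (Units.ext (by simpa [sub_eq_zero] using h))
      · rw [h, mul_zero] at h3
        exact II_sub_one_ne h3
    obtain ⟨u, hu, S, hS, h⟩ := cusp_values _ _ hne
    refine ⟨u, hu, S, hS, fun β hβ h1 h2 => ?_⟩
    have hσ : ∀ w, χ ((g⁻¹ * β * g) w) = χ w := fun w => by
      rw [MulAut.mul_apply, MulAut.mul_apply, hχ', hβ]; rfl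
    have hA : ∀ a ∈ A0, coc χ ![0, 0, 1] a = 0 := fun a ha =>
      hc'.zero_closure (by rintro _ ⟨j, rfl⟩; exact hx j) ha
    have hd : IsCoc χ (fun w => coc χ ![0, 0, 1] ((g⁻¹ * β * g) w) - coc χ ![0, 0, 1] w) := by
      intro a b
      have := hc'.comp _ hσ a b
      simp only at this ⊢
      rw [this, hc' a b]; ring
    have hzero := hd.zero (fun j => by
      fin_cases j
      · have := hA _ (h2 0)
        have h' := hx 0
        simp only [xx] at this h'
        exact sub_eq_zero.2 (this.trans h'.symm)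
      · have := hA _ (h2 1)
        have h' := hx 1
        simp only [xx] at this h'
        exact sub_eq_zero.2 (this.trans h'.symm)
      · exact sub_eq_zero.2 (congrArg _ h1))
    have hfix : ∀ j, coc χ ![0, 0, 1] (g⁻¹ (xx 0)) * rho β 0 j +
        coc χ ![0, 0, 1] (g⁻¹ (xx 1)) * rho β 1 j = coc χ ![0, 0, 1] (g⁻¹ (xx j)) := by
      intro j
      have e1 := hcg.expand (r := β (xx j)) (by rw [hβ, chi_xx])
      have e2 := hzero (g⁻¹ (xx j))
      simp only [MulAut.mul_apply, MulAut.apply_inv_self] at e2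
      simp only [rho, Matrix.of_apply]
      linear_combination e2 - e1
    exact h _ _ (hinv β hβ) (hfix 0) (hfix 1)

end Pool.Agent.Lib.MP_1d7b2e_al
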