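import Mathlib
import Pool.Agent.Lib.MP_1d7b2e_al.Cocycle

set_option autoImplicit false

namespace Pool.Agent.Lib.MP_1d7b2e_al

open FreeGroup

/-- An automorphism given by mutually inverse substitutions. -/
def mkAut (f g : Fin 3 → F3) (h1 : ∀ i, lift g (f i) = of i) (h2 : ∀ i, lift f (g i) = of i) :
    MulAut F3 :=
  MonoidHom.toMulEquiv (lift f) (lift g) (by ext1 i; simp [h1]) (by ext1 i; simp [h2])

theorem mkAut_of (f g : Fin 3 → F3) (h1 h2) (i : Fin 3) : mkAut f g h1 h2 (of i) = f i := by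
  simp [mkAut]

theorem mkAut_inv_of (f g : Fin 3 → F3) (h1 h2) (i : Fin 3) :
    (mkAut f g h1 h2)⁻¹ (of i) = g i := by
  change lift g (of i) = g i
  simp

def aL1 : MulAut F3 :=
  mkAut ![of 0 * of 1, of 1, of 2] ![of 0 * (of 1)⁻¹, of 1, of 2]
    (by intro i; fin_cases i <;> simp) (by intro i; fin_cases i <;> simp)

def aLi : MulAut F3 :=
  mkAut ![of 0 * (of 2 * of 1 * (of 2)⁻¹), of 1, of 2]
    ![of 0 * (of 2 * (of 1)⁻¹ * (of 2)⁻¹), of 1, of 2]
    (by intro i; fin_cases i <;> simp [mul_assoc]) (by intro i; fin_cases i <;> simp [mul_assoc])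

def aUi : MulAut F3 :=
  mkAut ![of 0, of 1 * (of 2 * of 0 * (of 2)⁻¹), of 2]
    ![of 0, of 1 * (of 2 * (of 0)⁻¹ * (of 2)⁻¹), of 2]
    (by intro i; fin_cases i <;> simp [mul_assoc]) (by intro i; fin_cases i <;> simp [mul_assoc])

theorem aL1_mem : aL1 ∈ Gam := mem_Gam_of fun j => by
  rw [aL1, mkAut_of]; fin_cases j <;> simp [chi]

theorem aLi_mem : aLi ∈ Gam := mem_Gam_of fun j => by
  rw [aLi, mkAut_of]; fin_cases j <;> simp [chi]

theorem aUi_mem : aUi ∈ Gam := mem_Gam_of fun j => by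
  rw [aUi, mkAut_of]; fin_cases j <;> simp [chi]

theorem cc_mul (k : Fin 2) (g h : F3) : cc k (g * h) = cc k g + chi g * cc k h := isCoc_cc k g h

theorem cc_inv (k : Fin 2) (g : F3) : cc k g⁻¹ = -(↑(chi g)⁻¹ * cc k g) := (isCoc_cc k).inv g

theorem cc_of (k : Fin 2) (j : Fin 3) : cc k (of j) = tt k j := coc_of _ _ _

theorem Iu_val : (Iu : GI) = II := rfl

theorem rho_aL1 : rho aL1 = !![1, 0; 1, 1] := by
  ext1 k j
  simp only [rho, Matrix.of_apply, xx, aL1, mkAut_of]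
  fin_cases k <;> fin_cases j <;> simp [cc_mul, cc_of, tt, chi]

theorem rho_aL1_inv : rho aL1⁻¹ = !![1, 0; -1, 1] := by
  ext1 k j
  simp only [rho, Matrix.of_apply, xx, aL1, mkAut_inv_of]
  fin_cases k <;> fin_cases j <;> simp [cc_mul, cc_inv, cc_of, tt, chi]

theorem rho_aLi_inv : rho aLi⁻¹ = !![1, 0; -II, 1] := by
  ext1 k j
  simp only [rho, Matrix.of_apply, xx, aLi, mkAut_inv_of]
  fin_cases k <;> fin_cases j <;> simp [cc_mul, cc_inv, cc_of, tt, chi, Iu_val]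

theorem rho_aUi : rho aUi = !![1, II; 0, 1] := by
  ext1 k j
  simp only [rho, Matrix.of_apply, xx, aUi, mkAut_of]
  fin_cases k <;> fin_cases j <;> simp [cc_mul, cc_inv, cc_of, tt, chi, Iu_val]

theorem rho_aUi_inv : rho aUi⁻¹ = !![1, -II; 0, 1] := by
  ext1 k j
  simp only [rho, Matrix.of_apply, xx, aUi, mkAut_inv_of]
  fin_cases k <;> fin_cases j <;> simp [cc_mul, cc_inv, cc_of, tt, chi, Iu_val]

def gL1 : Gam := ⟨aL1, aL1_mem⟩
def gLi : Gam := ⟨aLi, aLi_mem⟩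
def gUi : Gam := ⟨aUi, aUi_mem⟩

def g0 : Gam := gLi⁻¹ * gLi⁻¹ * gL1 * gUi * gUi * gL1⁻¹ * gUi⁻¹ * gUi⁻¹

theorem actPerm_g0 : actPerm rhoHom g0 = rp 1 * rp 0 * rp 2 * rp 3 := by
  have e1 : rhoHom gL1 = !![1, 0; 1, 1] := rho_aL1
  have e2 : rhoHom gL1⁻¹ = !![1, 0; -1, 1] := rho_aL1_inv
  have e3 : rhoHom gLi⁻¹ = !![1, 0; -II, 1] := rho_aLi_inv
  have e4 : rhoHom gUi = !![1, II; 0, 1] := rho_aUi
  have e5 : rhoHom gUi⁻¹ = !![1, -II; 0, 1] := rho_aUi_inv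
  have e : rhoHom g0 = !![⟨1, -2⟩, ⟨-4, 0⟩; ⟨-4, -4⟩, ⟨-3, 10⟩] := by
    rw [g0, rhoHom.map_mul, rhoHom.map_mul, rhoHom.map_mul, rhoHom.map_mul, rhoHom.map_mul,
      rhoHom.map_mul, rhoHom.map_mul, e1, e2, e3, e4, e5]
    ext1 i j
    fin_cases i <;> fin_cases j <;> simp [II] <;> decide
  ext1 v
  rw [actPerm_apply, e]
  obtain ⟨a, d, x, y⟩ := v
  simp [act, hv, sv, rp_apply, rf, B, nn]
  refine ⟨?_, ?_, ?_, ?_⟩ <;> ring

/-- The finite-index subgroup on which the folding homomorphism lives. -/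
def HH : Subgroup (MulAut F3) := (Good.comap (actPerm rhoHom)).map Gam.subtype

theorem mem_HH {α : MulAut F3} (h : α ∈ HH) :
    ∃ hα : α ∈ Gam, actPerm rhoHom ⟨α, hα⟩ ∈ Good := by
  obtain ⟨β, hβ, rfl⟩ := h
  exact ⟨β.2, hβ⟩

theorem HH_finiteIndex : HH.FiniteIndex := by
  have h1 := good_finiteIndex (actPerm rhoHom) (actPerm_iso rhoHom)
  have h2 := Gam_finiteIndex
  refine ⟨?_⟩
  rw [HH, Subgroup.index_map_subtype]
  exact mul_ne_zero h1.index_ne_zero h2.index_ne_zero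

theorem HH_FF {α : MulAut F3} (h : α ∈ HH) {v : V} (hv : Om v) :
    FF (act (rho α) v) = FF (act (rho α) v0) * FF v := by
  obtain ⟨hα, h⟩ := mem_HH h
  exact h.2 v hv

theorem HH_Om {α : MulAut F3} (h : α ∈ HH) {v : V} (hv : Om v) : Om (act (rho α) v) := by
  obtain ⟨hα, h⟩ := mem_HH h
  exact h.1.2 v hv

noncomputable def ff : HH →* Equiv.Perm ℤ where
  toFun α := FF (act (rho α) v0)
  map_one' := by simp [rho_one, act_one, FF_v0]
  map_mul' α β := by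
    rw [Subgroup.coe_mul, rho_mul (mem_HH α.2).1 (mem_HH β.2).1, act_mul,
      HH_FF α.2 (HH_Om β.2 Om_v0)]

theorem g0_mem : (g0 : MulAut F3) ∈ HH := by
  refine ⟨g0, ?_, rfl⟩
  change actPerm rhoHom g0 ∈ Good
  rw [actPerm_g0]
  exact Good.mul_mem (Good.mul_mem (Good.mul_mem (rp_good _) (rp_good _)) (rp_good _)) (rp_good _)

theorem ff_g0 : ff ⟨g0, g0_mem⟩ = sp 0 * sp 1 * sp 2 * sp 3 := by
  change FF (actPerm rhoHom g0 v0) = _
  rw [actPerm_g0]
  simp only [Equiv.Perm.mul_apply, rp_apply]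
  rw [FF_rf (((Om_v0.rf 3).rf 2).rf 0), FF_rf ((Om_v0.rf 3).rf 2), FF_rf (Om_v0.rf 3),
    FF_rf Om_v0, FF_v0]
  simp [qq, mul_assoc]

theorem range_ff_infinite : (Set.range ff).Infinite := by
  set c : Equiv.Perm ℤ := sp 0 * sp 1 * sp 2 * sp 3 with hc
  have h1 : ∀ x : ℤ, x % 4 = 0 → c x = x - 4 := by
    intro x hx
    simp only [hc, Equiv.Perm.mul_apply, sp_apply]
    have a1 : sf 3 x = x - 1 := by unfold sf; split_ifs <;> omega
    have a2 : sf 2 (x - 1) = x - 2 := by unfold sf; split_ifs <;> omega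
    have a3 : sf 1 (x - 2) = x - 3 := by unfold sf; split_ifs <;> omega
    have a4 : sf 0 (x - 3) = x - 4 := by unfold sf; split_ifs <;> omega
    rw [a1, a2, a3, a4]
  have h2 : ∀ n : ℕ, (c ^ n) 0 = -4 * n := by
    intro n
    induction n with
    | zero => simp
    | succ n ih =>
      rw [pow_succ', Equiv.Perm.mul_apply, ih, h1 _ (by omega)]
      push_cast; ring
  refine Set.infinite_of_injective_forall_mem (f := fun n : ℕ => c ^ n) ?_ ?_
  · intro m n hmn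
    have := h2 m
    simp only at hmn
    rw [hmn, h2 n] at this
    omega
  · intro n
    exact ⟨⟨g0, g0_mem⟩ ^ n, by rw [map_pow, ff_g0]⟩

/-- The standard copy of the automorphism group of the rank two free factor. -/
def Bs : Subgroup (MulAut F3) where
  carrier := {σ | σ zz = zz ∧ ∀ a, a ∈ A0 ↔ σ a ∈ A0}
  one_mem' := ⟨rfl, fun _ => Iff.rfl⟩
  mul_mem' := by
    rintro a b ⟨h1, h2⟩ ⟨h3, h4⟩
    exact ⟨by rw [MulAut.mul_apply, h3, h1], fun w => (h4 w).trans (h2 _)⟩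
  inv_mem' := by
    rintro a ⟨h1, h2⟩
    refine ⟨?_, fun w => ?_⟩
    · conv_lhs => rw [← h1]
      simp
    · rw [h2 (a⁻¹ w)]; simp

theorem main : ∃ (G : Type) (_ : Group G) (φ : MulAut F3 →* G),
    (φ '' (Bs : Set (MulAut F3))).Finite ∧ (Set.range φ).Infinite := by
  have := HH_finiteIndex
  refine induce HH ff Bs (fun g => ?_) range_ff_infinite
  obtain ⟨u, hu, S, hS, h⟩ := conj_values g
  refine (hS.image (fun y => y * (FF u)⁻¹)).subset ?_
  rintro _ ⟨β, hβ, rfl⟩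
  refine ⟨_, h β (mem_HH β.2).1 hβ.1
    (fun j => (hβ.2 _).1 (Subgroup.subset_closure ⟨j, rfl⟩)), ?_⟩
  simp only
  rw [HH_FF β.2 hu, mul_inv_cancel_right]
  rfl

end Pool.Agent.Lib.MP_1d7b2e_al
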