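import Mathlib
import Pool.Agent.Lib.MP_1d7b2e_al.Main

set_option autoImplicit false

namespace Pool.Agent.Lib.MP_1d7b2e_al

/-- Induction from a finite-index subgroup. -/
theorem induce2 {A Q : Type} [Group A] [Group Q] (H : Subgroup A) [H.FiniteIndex]
    (f : H →* Q) (B : Subgroup A)
    (hfin : ∀ g : A, {y : Q | ∃ h : H, g⁻¹ * (h : A) * g ∈ B ∧ f h = y}.Finite) :
    ∃ (G : Type) (_ : Group G) (φ : A →* G), Function.Surjective φ ∧
      (φ '' (B : Set A)).Finite ∧ ∀ h : H, φ h = 1 → f h = 1 := by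
  classical
  set K : Subgroup A := f.ker.map H.subtype with hK
  have memK : ∀ a : A, a ∈ K ↔ ∃ ha : a ∈ H, f ⟨a, ha⟩ = 1 := by
    intro a
    constructor
    · rintro ⟨b, hb, rfl⟩
      exact ⟨b.2, hb⟩
    · rintro ⟨ha, h1⟩
      exact ⟨⟨a, ha⟩, h1, rfl⟩
  refine ⟨A ⧸ K.normalCore, inferInstance, QuotientGroup.mk' K.normalCore,
    QuotientGroup.mk'_surjective _, ?_, ?_⟩
  · -- the subgroup of `B` conjugated into `K` by `g`
    let Kg : A → Subgroup B := fun g =>
      (K.comap (MulAut.conj g).toMonoidHom).comap B.subtype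
    let Hg : A → Subgroup B := fun g =>
      (H.comap (MulAut.conj g).toMonoidHom).comap B.subtype
    have memKg : ∀ g (b : B), b ∈ Kg g ↔ g * (b : A) * g⁻¹ ∈ K := by
      intro g b; exact Iff.rfl
    have memHg : ∀ g (b : B), b ∈ Hg g ↔ g * (b : A) * g⁻¹ ∈ H := by
      intro g b; exact Iff.rfl
    have hHg : ∀ g, (Hg g).FiniteIndex := by
      intro g
      refine finiteIndex_of_key _ (Set.univ : Set (A ⧸ H)) Set.finite_univ
        (fun b => QuotientGroup.mk ((b : A) * g⁻¹)) (fun _ => Set.mem_univ _) ?_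
      intro a b hab
      rw [QuotientGroup.eq] at hab
      rw [memHg]
      simpa [mul_assoc] using hab
    have hKg : ∀ g, (Kg g).FiniteIndex := by
      intro g
      have hle : Kg g ≤ Hg g := by
        intro b hb
        rw [memKg, memK] at hb
        rw [memHg]
        exact hb.1
      have h1 : ((Kg g).subgroupOf (Hg g)).FiniteIndex := by
        refine finiteIndex_of_key _ _ (hfin g)
          (fun b => f ⟨g * ((b : B) : A) * g⁻¹, (memHg g _).1 b.2⟩) ?_ ?_
        · intro b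
          refine ⟨_, ?_, rfl⟩
          simp [mul_assoc]
        · intro a b hab
          rw [Subgroup.mem_subgroupOf, memKg, memK]
          refine ⟨(memHg g _).1 (a⁻¹ * b).2, ?_⟩
          have : (⟨g * (((a⁻¹ * b : Hg g) : B) : A) * g⁻¹, (memHg g _).1 (a⁻¹ * b).2⟩ : H) =
              (⟨g * ((a : B) : A) * g⁻¹, (memHg g _).1 a.2⟩ : H)⁻¹ *
                ⟨g * ((b : B) : A) * g⁻¹, (memHg g _).1 b.2⟩ := by
            ext; simp [mul_assoc]
          rw [this, map_mul, map_inv]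
          rw [hab, inv_mul_cancel]
      have h2 := Subgroup.relIndex_mul_index hle
      refine ⟨?_⟩
      rw [← h2]
      exact mul_ne_zero h1.index_ne_zero (hHg g).index_ne_zero
    have hN : (⨅ t : A ⧸ H, Kg (t.out)⁻¹).FiniteIndex := Subgroup.finiteIndex_iInf (fun t => hKg _)
    have hsub : ∀ b : B, b ∈ (⨅ t : A ⧸ H, Kg (t.out)⁻¹) → (b : A) ∈ K.normalCore := by
      intro b hb g
      rw [Subgroup.mem_iInf] at hb
      have h1 := (memKg _ _).1 (hb (QuotientGroup.mk g⁻¹))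
      obtain ⟨h, hh⟩ := QuotientGroup.mk_out_eq_mul H g⁻¹
      rw [hh, memK] at h1
      obtain ⟨h1, h2⟩ := h1
      rw [memK]
      have e : g * (b : A) * g⁻¹ = (h : A) * ((g⁻¹ * h)⁻¹ * b * (g⁻¹ * h)⁻¹⁻¹) * (h : A)⁻¹ := by
        group
      have hm : g * (b : A) * g⁻¹ ∈ H := by
        rw [e]; exact H.mul_mem (H.mul_mem h.2 h1) (H.inv_mem h.2)
      refine ⟨hm, ?_⟩
      have e2 : (⟨g * (b : A) * g⁻¹, hm⟩ : H) = h * ⟨_, h1⟩ * h⁻¹ := Subtype.ext e
      rw [e2, map_mul, map_mul, h2, map_inv]; simp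
    have := hN
    have : (QuotientGroup.mk' K.normalCore) '' (B : Set A) ⊆
        Set.range (fun t : B ⧸ (⨅ t : A ⧸ H, Kg (t.out)⁻¹) =>
          QuotientGroup.mk' K.normalCore ((t.out : B) : A)) := by
      rintro _ ⟨b, hb, rfl⟩
      refine ⟨QuotientGroup.mk ⟨b, hb⟩, ?_⟩
      obtain ⟨h, hh⟩ := QuotientGroup.mk_out_eq_mul (⨅ t : A ⧸ H, Kg (t.out)⁻¹) (⟨b, hb⟩ : B)
      simp only [hh, QuotientGroup.mk'_apply]
      symm
      rw [QuotientGroup.eq]
      simpa using hsub _ h.2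
    exact (Set.finite_range _).subset this
  · intro h hh
    rw [QuotientGroup.mk'_apply, QuotientGroup.eq_one_iff] at hh
    obtain ⟨h1, h2⟩ := (memK _).1 (K.normalCore_le hh)
    exact h2

theorem pow_c_ne (n : ℕ) (hn : 0 < n) : (sp 0 * sp 1 * sp 2 * sp 3) ^ n ≠ 1 := by
  set c : Equiv.Perm ℤ := sp 0 * sp 1 * sp 2 * sp 3 with hc
  have h1 : ∀ x : ℤ, x % 4 = 0 → c x = x - 4 := by
    intro x hx
    simp only [hc, Equiv.Perm.mul_apply, sp_apply]
    have a1 : sf 3 x = x - 1 := by unfold sf; split_ifs <;> omega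
    have a2 : sf 2 (x - 1) = x - 2 := by unfold sf; split_ifs <;> omega
    have a3 : sf 1 (x - 2) = x - 3 := by unfold sf; split_ifs <;> omega
    have a4 : sf 0 (x - 3) = x - 4 := by unfold sf; split_ifs <;> omega
    rw [a1, a2, a3, a4]
  have h2 : ∀ n : ℕ, (c ^ n) 0 = -4 * n := by
    intro n
    induction n with
    | zero => simp
    | succ n ih =>
      rw [pow_succ', Equiv.Perm.mul_apply, ih, h1 _ (by omega)]
      push_cast; ring
  intro h
  have := h2 n
  rw [h, Equiv.Perm.one_apply] at this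
  omega

theorem main2 : ∃ (G : Type) (_ : Group G) (φ : MulAut F3 →* G), Function.Surjective φ ∧
    (φ '' (Bs : Set (MulAut F3))).Finite ∧ ∃ g : G, ¬ IsOfFinOrder g := by
  have := HH_finiteIndex
  obtain ⟨G, _, φ, h1, h2, h3⟩ := induce2 HH ff Bs (fun g => by
    obtain ⟨u, hu, S, hS, h⟩ := conj_values g
    refine (hS.image (fun y => y * (FF u)⁻¹)).subset ?_
    rintro _ ⟨β, hβ, rfl⟩
    refine ⟨_, h β (mem_HH β.2).1 hβ.1
      (fun j => (hβ.2 _).1 (Subgroup.subset_closure ⟨j, rfl⟩)), ?_⟩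
    simp only
    rw [HH_FF β.2 hu, mul_inv_cancel_right]
    rfl)
  refine ⟨G, inferInstance, φ, h1, h2, φ (g0 : MulAut F3), fun h => ?_⟩
  obtain ⟨n, hn, e⟩ := isOfFinOrder_iff_pow_eq_one.1 h
  have := h3 (⟨g0, g0_mem⟩ ^ n) (by rw [Subgroup.coe_pow, map_pow]; exact e)
  rw [map_pow, ff_g0] at this
  exact pow_c_ne n hn this

theorem mem_A0 (a : F3) :
    a ∈ A0 ↔ ∃ w : FreeGroup (Fin 2), FreeGroup.map Fin.castSucc w = a := by
  have : A0 = (FreeGroup.map (Fin.castSucc : Fin 2 → Fin 3)).range := by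
    rw [FreeGroup.range_map, A0]
    congr 1
    rw [← Set.range_comp]
    rfl
  rw [this]
  rfl

end Pool.Agent.Lib.MP_1d7b2e_al
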